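import Mathlib

open Polynomial
open scoped Quaternion

namespace Pool.Agent.Results.MP_628392_al.NotMatched

/-- The one-variable polynomial ring `ℍ[u]`, with `u` central. -/
abbrev P : Type := Polynomial ℍ[ℝ]

/-- The two-variable polynomial ring `ℍ[u, v] = ℍ[u][v]`, with `u` and `v` central. -/
abbrev R : Type := Polynomial P

/-- `A` and `B` are similar: `R / R A` and `R / R B` are isomorphic as left `R`-modules. -/
def Similar (A B : R) : Prop :=
  Nonempty ((R ⧸ Submodule.span R {A}) ≃ₗ[R] (R ⧸ Submodule.span R {B}))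

/-- `L` is an admissible factorization of `F`: an ordered product of irreducible elements
of degree at most `1` in `v`. -/
def Admissible (F : R) (L : List R) : Prop :=
  L.prod = F ∧ ∀ A ∈ L, Irreducible A ∧ A.natDegree ≤ 1

/-- The members of the two lists can be matched up in similar pairs; in particular the lists
have the same length. -/
def Matched (L L' : List R) : Prop :=
  ∃ σ : Fin L.length ≃ Fin L'.length, ∀ i, Similar (L.get i) (L'.get (σ i))

lemma isUnit_const {D : Type} [DivisionRing D] (p : Polynomial D) (hp : p ≠ 0)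
    (h : p.natDegree = 0) : IsUnit p := by
  rw [Polynomial.natDegree_eq_zero] at h
  obtain ⟨c, rfl⟩ := h
  have hc : c ≠ 0 := by rintro rfl; simp at hp
  exact (IsUnit.mk0 c hc).map C

lemma isUnit_C {A : Type} [Ring A] {a : A} (h : IsUnit a) : IsUnit (C a : Polynomial A) :=
  h.map C

/-- A unit of `ℍ[u]` has degree `0`. -/
lemma natDegree_of_mul_eq_one (p q : P) (h : p * q = 1) : q.natDegree = 0 := by
  have hp : p ≠ 0 := by rintro rfl; simp at h
  have hq : q ≠ 0 := by rintro rfl; simp at h
  have := congrArg natDegree h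
  rw [natDegree_mul hp hq, natDegree_one] at this
  omega

lemma irreducible_lin (a : P) : Irreducible (X - C a : R) := by
  constructor
  · intro h
    obtain ⟨w, hw⟩ := h.exists_right_inv
    have hX : (X - C a : R) ≠ 0 := X_sub_C_ne_zero a
    have hw0 : w ≠ 0 := by rintro rfl; simp at hw
    have := congrArg natDegree hw
    rw [natDegree_mul hX hw0, natDegree_one, natDegree_X_sub_C] at this
    omega
  · intro b c hbc
    have hX : (X - C a : R) ≠ 0 := X_sub_C_ne_zero a
    have hb0 : b ≠ 0 := by rintro rfl; simp [hX] at hbc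
    have hc0 : c ≠ 0 := by rintro rfl; simp [hX] at hbc
    have hdeg := congrArg natDegree hbc
    rw [natDegree_mul hb0 hc0, natDegree_X_sub_C] at hdeg
    have hlead := congrArg leadingCoeff hbc
    rw [leadingCoeff_mul, leadingCoeff_X_sub_C] at hlead
    have hunit1 : IsUnit b.leadingCoeff := by
      apply isUnit_const _ (leadingCoeff_ne_zero.mpr hb0)
      have hp : b.leadingCoeff ≠ 0 := leadingCoeff_ne_zero.mpr hb0
      have hq : c.leadingCoeff ≠ 0 := leadingCoeff_ne_zero.mpr hc0
      have := congrArg natDegree hlead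
      rw [natDegree_mul hp hq, natDegree_one] at this
      omega
    have hunit2 : IsUnit c.leadingCoeff := by
      apply isUnit_const _ (leadingCoeff_ne_zero.mpr hc0)
      exact natDegree_of_mul_eq_one _ _ hlead.symm
    rcases Nat.eq_zero_or_pos b.natDegree with h0 | h0
    · left
      rw [eq_C_of_natDegree_eq_zero h0]
      have : b.leadingCoeff = b.coeff 0 := by rw [leadingCoeff, h0]
      rw [← this]
      exact isUnit_C hunit1
    · right
      have h1 : c.natDegree = 0 := by omega
      rw [eq_C_of_natDegree_eq_zero h1]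
      have : c.leadingCoeff = c.coeff 0 := by rw [leadingCoeff, h1]
      rw [← this]
      exact isUnit_C hunit2

lemma irreducible_const (q : ℍ[ℝ]) : Irreducible (C (X - C q) : R) := by
  have hX : (X - C q : P) ≠ 0 := X_sub_C_ne_zero q
  constructor
  · intro h
    obtain ⟨w, hw⟩ := h.exists_right_inv
    have h1 : (X - C q : P) * w.coeff 0 = 1 := by
      have := congrArg (fun f => coeff f 0) hw
      simpa using this
    have hw0 : w.coeff 0 ≠ 0 := by intro h2; rw [h2] at h1; simp at h1
    have := congrArg natDegree h1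
    rw [natDegree_mul hX hw0, natDegree_one, natDegree_X_sub_C] at this
    omega
  · intro b c hbc
    have hX' : (C (X - C q) : R) ≠ 0 := by
      intro h; exact hX (C_eq_zero.mp h)
    have hb0 : b ≠ 0 := by rintro rfl; rw [zero_mul] at hbc; exact hX' hbc
    have hc0 : c ≠ 0 := by rintro rfl; rw [mul_zero] at hbc; exact hX' hbc
    have hdeg := congrArg natDegree hbc
    rw [natDegree_mul hb0 hc0, natDegree_C] at hdeg
    have hb1 : b.natDegree = 0 := by omega
    have hc1 : c.natDegree = 0 := by omega
    rw [eq_C_of_natDegree_eq_zero hb1, eq_C_of_natDegree_eq_zero hc1, ← C_mul] at hbc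
    have hbc' := C_injective hbc
    have hb2 : b.coeff 0 ≠ 0 := by intro h; rw [h] at hbc'; simp [hX] at hbc'
    have hc2 : c.coeff 0 ≠ 0 := by intro h; rw [h] at hbc'; simp [hX] at hbc'
    have hdeg' := congrArg natDegree hbc'
    rw [natDegree_mul hb2 hc2, natDegree_X_sub_C] at hdeg'
    rcases Nat.eq_zero_or_pos (b.coeff 0).natDegree with h0 | h0
    · left
      rw [eq_C_of_natDegree_eq_zero hb1]
      exact isUnit_C (isUnit_const _ hb2 h0)
    · right
      rw [eq_C_of_natDegree_eq_zero hc1]
      exact isUnit_C (isUnit_const _ hc2 (by omega))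

/-- A constant (in `v`) multiple of `v - b` vanishes. -/
lemma const_mem (b p : P) (h : (C p : R) ∈ Submodule.span R {(X - C b : R)}) : p = 0 := by
  rw [Submodule.mem_span_singleton] at h
  obtain ⟨q, hq⟩ := h
  have := congrArg (eval b) hq
  rw [smul_eq_mul, eval_mul_X_sub_C, eval_C] at this
  exact this.symm

/-- Every polynomial is congruent to a constant (in `v`) modulo `R (v - b)`. -/
lemma exists_const (b : P) (f : R) :
    ∃ p : P, f - C p ∈ Submodule.span R {(X - C b : R)} := by
  induction f using Polynomial.induction_on' with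
  | add f g hf hg =>
    obtain ⟨p, hp⟩ := hf
    obtain ⟨q, hq⟩ := hg
    refine ⟨p + q, ?_⟩
    have : f + g - C (p + q) = (f - C p) + (g - C q) := by rw [C_add]; abel
    rw [this]
    exact Submodule.add_mem _ hp hq
  | monomial n c =>
    refine ⟨c * b ^ n, ?_⟩
    rw [Submodule.mem_span_singleton]
    have hcomm : Commute (X : R) (C b) := commute_X (C b)
    refine ⟨C c * ∑ i ∈ Finset.range n, X ^ i * (C b) ^ (n - 1 - i), ?_⟩
    rw [smul_eq_mul, mul_assoc, hcomm.geom_sum₂_mul, mul_sub, ← C_mul_X_pow_eq_monomial, C_mul, C_pow]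

/-- If `v - a` and `v - b` are similar then `a γ = γ b` for a unit `γ` of `ℍ[u]`. -/
lemma conj_of_similar (a b : P) (h : Similar (X - C a) (X - C b)) :
    ∃ γ : P, γ ≠ 0 ∧ γ.natDegree = 0 ∧ a * γ = γ * b := by
  obtain ⟨φ⟩ := h
  obtain ⟨g, hg⟩ := Submodule.Quotient.mk_surjective _ (φ (Submodule.Quotient.mk 1))
  obtain ⟨γ, hγ⟩ := exists_const b g
  have h1 : φ (Submodule.Quotient.mk 1) = Submodule.Quotient.mk (C γ : R) := by
    rw [← hg]
    exact (Submodule.Quotient.eq _).mpr hγ
  have hlin : ∀ f : R, φ (Submodule.Quotient.mk f) = Submodule.Quotient.mk (f * C γ) := by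
    intro f
    have : (Submodule.Quotient.mk f : R ⧸ Submodule.span R {(X - C a : R)}) =
        f • Submodule.Quotient.mk 1 := by
      rw [← Submodule.Quotient.mk_smul, smul_eq_mul, mul_one]
    rw [this, map_smul, h1, ← Submodule.Quotient.mk_smul, smul_eq_mul]
  -- the relation
  have hrel : a * γ = γ * b := by
    have h2 : φ (Submodule.Quotient.mk (X - C a)) = 0 := by
      have : (Submodule.Quotient.mk (X - C a) : R ⧸ Submodule.span R {(X - C a : R)}) = 0 :=
        (Submodule.Quotient.mk_eq_zero _).mpr (Submodule.mem_span_singleton_self _)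
      rw [this, map_zero]
    rw [hlin, Submodule.Quotient.mk_eq_zero] at h2
    have h3 : (C (γ * b - a * γ) : R) ∈ Submodule.span R {(X - C b : R)} := by
      have e : (C (γ * b - a * γ) : R) = (X - C a) * C γ - C γ * (X - C b) := by
        have hX : (X : R) * C γ = C γ * X := X_mul_C γ
        rw [sub_mul, mul_sub, hX, C_sub, C_mul, C_mul]
        abel
      rw [e]
      refine Submodule.sub_mem _ h2 ?_
      rw [← smul_eq_mul (C γ)]
      exact Submodule.smul_mem _ _ (Submodule.mem_span_singleton_self _)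
    exact (sub_eq_zero.mp (const_mem b _ h3)).symm
  -- surjectivity
  obtain ⟨w, hw⟩ := φ.surjective (Submodule.Quotient.mk 1)
  obtain ⟨f, rfl⟩ := Submodule.Quotient.mk_surjective _ w
  obtain ⟨p, hp⟩ := exists_const a f
  have hfp : (Submodule.Quotient.mk f : R ⧸ Submodule.span R {(X - C a : R)}) =
      Submodule.Quotient.mk (C p) := (Submodule.Quotient.eq _).mpr hp
  rw [hfp, hlin, Submodule.Quotient.eq, ← C_mul, ← C_1, ← C_sub] at hw
  have hpγ : p * γ = 1 := sub_eq_zero.mp (const_mem b _ hw)
  exact ⟨γ, by rintro rfl; simp at hpγ, natDegree_of_mul_eq_one _ _ hpγ, hrel⟩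

/-- The quaternion unit `i`. -/
def qi : ℍ[ℝ] := ⟨0, 1, 0, 0⟩

/-- The quaternion unit `j`. -/
def qj : ℍ[ℝ] := ⟨0, 0, 1, 0⟩

/-- The quaternion unit `k`. -/
def qk : ℍ[ℝ] := ⟨0, 0, 0, 1⟩

lemma ij : qi * qj = qk := by
  apply Quaternion.ext <;> simp [Quaternion.re_mul, Quaternion.imI_mul, Quaternion.imJ_mul,
    Quaternion.imK_mul] <;> simp [qi, qj, qk]

lemma ji : qj * qi = -qk := by
  apply Quaternion.ext <;> simp [Quaternion.re_mul, Quaternion.imI_mul, Quaternion.imJ_mul,
    Quaternion.imK_mul] <;> simp [qi, qj, qk]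

lemma ik : qi * qk = -qj := by
  apply Quaternion.ext <;> simp [Quaternion.re_mul, Quaternion.imI_mul, Quaternion.imJ_mul,
    Quaternion.imK_mul] <;> simp [qi, qj, qk]

lemma ii : qi * qi = -1 := by
  apply Quaternion.ext <;> simp [Quaternion.re_mul, Quaternion.imI_mul, Quaternion.imJ_mul,
    Quaternion.imK_mul] <;> simp [qi]

/-- `a = (u + i) ^ 2 j = u ^ 2 j + 2 u k - j`. -/
noncomputable def a : P := monomial 2 qj + monomial 1 (qk + qk) - monomial 0 qj

/-- `b = (u ^ 2 + 1) j`. -/
noncomputable def b : P := monomial 2 qj + monomial 0 qj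

lemma key : (X - C qi : P) * a = b * (X - C qi) := by
  rw [a, b, ← monomial_one_one_eq_X, ← monomial_zero_left]
  simp only [mul_sub, sub_mul, mul_add, add_mul, monomial_mul_monomial, ij, ji, ik, map_add,
    map_neg, one_mul, mul_one, Nat.reduceAdd]
  abel

lemma main_eq : (C (X - C qi) : R) * (X - C a) = (X - C b) * C (X - C qi) := by
  have hX : (X : R) * C (X - C qi) = C (X - C qi) * X := X_mul_C _
  rw [mul_sub, sub_mul, hX, ← C_mul, ← C_mul, key]

lemma central (f : R) : C (X ^ 2 + 1 : P) * f = f * C (X ^ 2 + 1 : P) := by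
  induction f using Polynomial.induction_on' with
  | add f g hf hg => rw [mul_add, add_mul, hf, hg]
  | monomial n c =>
    rw [C_mul_monomial, monomial_mul_C, add_mul, mul_add, X_pow_mul, one_mul, mul_one]

lemma factor : (X ^ 2 + 1 : P) = (X + C qi) * (X - C qi) := by
  have h : (X : P) * C qi = C qi * X := X_mul_C _
  rw [add_mul, mul_sub, mul_sub, ← C_mul, ii, h, C_neg, C_1, sq]
  abel

lemma ne_zero : (X ^ 2 + 1 : P) ≠ 0 := by
  intro h
  have := congrArg (fun f => coeff f 0) h
  simp at this

lemma not_sim1 : ¬ Similar (C (X - C qi)) (X - C b) := by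
  rintro ⟨ψ⟩
  apply ne_zero
  apply const_mem b
  rw [← Submodule.Quotient.mk_eq_zero]
  obtain ⟨w, hw⟩ := ψ.surjective (Submodule.Quotient.mk 1)
  obtain ⟨f, rfl⟩ := Submodule.Quotient.mk_surjective _ w
  have h1 : (C (X ^ 2 + 1 : P) : R) • (Submodule.Quotient.mk f :
      R ⧸ Submodule.span R {(C (X - C qi) : R)}) = 0 := by
    rw [← Submodule.Quotient.mk_smul, Submodule.Quotient.mk_eq_zero, smul_eq_mul, central, factor,
      C_mul, ← mul_assoc, ← smul_eq_mul]
    exact Submodule.smul_mem _ _ (Submodule.mem_span_singleton_self _)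
  have h2 : (C (X ^ 2 + 1 : P) : R) • (Submodule.Quotient.mk 1 :
      R ⧸ Submodule.span R {(X - C b : R)}) = 0 := by
    rw [← hw, ← map_smul, h1, map_zero]
  rw [← Submodule.Quotient.mk_smul, smul_eq_mul, mul_one] at h2
  exact h2

lemma not_sim2 : ¬ Similar (X - C a) (X - C b) := by
  intro h
  obtain ⟨γ, hγ0, hγd, hγ⟩ := conj_of_similar a b h
  rw [Polynomial.natDegree_eq_zero] at hγd
  obtain ⟨c, rfl⟩ := hγd
  have h1 := congrArg (fun f => coeff f 1) hγ
  simp only [coeff_mul_C, coeff_C_mul] at h1
  have ha : coeff a 1 = qk + qk := by simp [a, coeff_monomial]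
  have hb : coeff b 1 = 0 := by simp [b, coeff_monomial]
  rw [ha, hb, mul_zero] at h1
  have hk : qk + qk ≠ 0 := by
    intro h
    have h3 : (qk + qk).imK = (0 : ℍ[ℝ]).imK := by rw [h]
    rw [Quaternion.imK_add] at h3
    have h4 : qk.imK = 1 := rfl
    rw [h4] at h3
    norm_num at h3
  rcases mul_eq_zero.mp h1 with h2 | h2
  · exact hk h2
  · apply hγ0
    rw [h2, C_0]

/-- Unique factorization up to similarity fails for products of irreducible quaternionic
polynomials in `u, v` of degree at most one in `v`. -/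
theorem result : ¬ (∀ F : R, F ≠ 0 → ∀ L L' : List R,
    Admissible F L → Admissible F L' → Matched L L') := by
  intro H
  have hF : (C (X - C qi) : R) * (X - C a) ≠ 0 := by
    apply mul_ne_zero
    · intro h; exact X_sub_C_ne_zero qi (C_eq_zero.mp h)
    · exact X_sub_C_ne_zero a
  obtain ⟨σ, hσ⟩ := H _ hF [C (X - C qi), X - C a] [X - C b, C (X - C qi)]
    (by
      refine ⟨by simp, ?_⟩
      intro A hA
      simp only [List.mem_cons, List.not_mem_nil, or_false] at hA
      rcases hA with rfl | rfl
      · exact ⟨irreducible_const _, by rw [natDegree_C]; omega⟩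
      · exact ⟨irreducible_lin _, by rw [natDegree_X_sub_C]⟩)
    (by
      refine ⟨by rw [main_eq]; simp, ?_⟩
      intro A hA
      simp only [List.mem_cons, List.not_mem_nil, or_false] at hA
      rcases hA with rfl | rfl
      · exact ⟨irreducible_lin _, by rw [natDegree_X_sub_C]⟩
      · exact ⟨irreducible_const _, by rw [natDegree_C]; omega⟩)
  obtain ⟨i, hi⟩ := σ.surjective ⟨0, by simp⟩
  have h := hσ i
  rw [hi] at h
  fin_cases i
  · exact not_sim1 h
  · exact not_sim2 h

end Pool.Agent.Results.MP_628392_al.NotMatched
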